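import Mathlib

/-!
# 4-connected graphs, straight-line plane drawings, cycles of a given length: definitions
-/

namespace Pool.Agent.Helper89_Planar

/-- `G` is 4-connected: it has at least 5 vertices and stays connected after deleting any set of
at most 3 vertices. -/
def FourConnected {V : Type} [Fintype V] (G : SimpleGraph V) : Prop :=
  5 ≤ Fintype.card V ∧
    ∀ S : Finset V, S.card ≤ 3 → (G.induce {x | x ∉ S}).Connected

/-- `p` is a straight-line drawing of `G` in the plane without crossings: distinct vertices are
drawn as distinct points, the edge `ab` is drawn as the segment from `p a` to `p b`, a vertex lies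
on an edge only if it is an end of the edge, and a common point of two distinct edges is a common
end of the two edges. -/
structure IsPlaneDrawing {V : Type} (G : SimpleGraph V) (p : V → ℝ × ℝ) : Prop where
  injective : Function.Injective p
  vertex_edge : ∀ a b w, G.Adj a b → p w ∈ segment ℝ (p a) (p b) → w = a ∨ w = b
  edge_edge : ∀ a b c d, G.Adj a b → G.Adj c d → s(a, b) ≠ s(c, d) →
    ∀ x, x ∈ segment ℝ (p a) (p b) → x ∈ segment ℝ (p c) (p d) →
      ∃ w, (w = a ∨ w = b) ∧ (w = c ∨ w = d) ∧ x = p w

/-- `G` is planar, in the strong form that it has a plane drawing all of whose edges are straight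
segments. (By the theorem of Wagner, Fáry and Stein every finite simple planar graph has one.) -/
def Planar {V : Type} (G : SimpleGraph V) : Prop := ∃ p : V → ℝ × ℝ, IsPlaneDrawing G p

/-- `G` contains an `l`-cycle. -/
def HasCycleOfLength {V : Type} (G : SimpleGraph V) (l : ℕ) : Prop :=
  ∃ (u : V) (c : G.Walk u u), c.IsCycle ∧ c.length = l

end Pool.Agent.Helper89_Planar
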