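import Pool.Agent.Helper89_Planar.Graph
import Pool.Agent.Helper89_Planar.Defs

/-!
# The graph is 4-connected
-/

namespace Pool.Agent.Helper89_Planar

/-! ### Deleting vertex `0` and at most two further vertices -/

/-- `f n`, written so that `n` is evaluated first. -/
noncomputable def strict (n : ℕ) (f : ℕ → ℕ) : ℕ := Nat.rec (f 0) (fun k _ => f (Nat.succ k)) n

theorem strict_eq (n : ℕ) (f : ℕ → ℕ) : strict n f = f n := by
  cases n <;> rfl

/-- One sweep of the flooding procedure. -/
noncomputable def sweep (c : ℕ) (L : List (ℕ × ℕ)) : ℕ → ℕ :=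
  List.rec (fun r => r) (fun p _ ih r => Nat.rec (ih r)
    (fun _ _ => strict (Nat.lor r (Nat.land p.2 c)) ih) (Nat.land (Nat.shiftRight r p.1) 1)) L

theorem sweep_nil (c r : ℕ) : sweep c [] r = r := rfl

theorem sweep_cons (c : ℕ) (p : ℕ × ℕ) (L : List (ℕ × ℕ)) (r : ℕ) :
    sweep c (p :: L) r = sweep c L (if r.testBit p.1 = true then r ||| (p.2 &&& c) else r) := by
  have h1 : sweep c (p :: L) r = Nat.rec (motive := fun _ => ℕ) (sweep c L r)
      (fun _ _ => strict (Nat.lor r (Nat.land p.2 c)) (sweep c L))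
      (Nat.land (Nat.shiftRight r p.1) 1) := rfl
  have h2 : r.testBit p.1 = (Nat.land (Nat.shiftRight r p.1) 1 != 0) := by
    rw [Nat.testBit_eq_decide_div_mod_eq]
    have : Nat.land (Nat.shiftRight r p.1) 1 = (r / 2 ^ p.1) % 2 := by
      have h3 : Nat.land (Nat.shiftRight r p.1) 1 = (r >>> p.1) &&& 1 := rfl
      rw [h3, Nat.shiftRight_eq_div_pow, Nat.and_one_is_mod]
    rw [this]
    rcases Nat.mod_two_eq_zero_or_one (r / 2 ^ p.1) with h | h <;> simp [h]
  rw [h1, h2]
  generalize Nat.land (Nat.shiftRight r p.1) 1 = t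
  cases t with
  | zero => simp
  | succ t =>
    have h4 : (t + 1 != 0) = true := by simp
    rw [if_pos h4]
    exact strict_eq _ _

/-- A step inside the allowed set. -/
def Step (allowed : ℕ) (i j : ℕ) : Prop := adjB i j = true ∧ allowed.testBit j = true

theorem sweep_sound (c root : ℕ) :
    ∀ (L : List (ℕ × ℕ)), (∀ p ∈ L, rowOf p.1 = p.2) → ∀ r : ℕ,
      (∀ i, r.testBit i = true → Relation.ReflTransGen (Step c) root i) →
      ∀ i, (sweep c L r).testBit i = true → Relation.ReflTransGen (Step c) root i := by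
  intro L
  induction L with
  | nil => intro _ r hr i hi; exact hr i hi
  | cons p L ih =>
    intro hL r hr i hi
    rw [sweep_cons] at hi
    refine ih (fun q hq => hL q (List.mem_cons_of_mem _ hq)) _ ?_ i hi
    intro j hj
    by_cases hb : r.testBit p.1 = true
    · rw [if_pos hb, Nat.testBit_or, Bool.or_eq_true, Nat.testBit_and,
        Bool.and_eq_true] at hj
      rcases hj with hj | ⟨hj1, hj2⟩
      · exact hr j hj
      · refine (hr p.1 hb).tail ⟨?_, hj2⟩
        unfold adjB
        rw [hL p List.mem_cons_self]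
        exact hj1
    · rw [if_neg hb] at hj
      exact hr j hj

theorem frows_ok : ∀ p ∈ frows, rowOf p.1 = p.2 := by
  have h : (frows.all fun p => decide (rowOf p.1 = p.2)) = true := by decide +kernel
  intro p hp
  simpa using List.all_eq_true.1 h p hp

theorem brows_ok : ∀ p ∈ brows, rowOf p.1 = p.2 := by
  have h : (brows.all fun p => decide (rowOf p.1 = p.2)) = true := by decide +kernel
  intro p hp
  simpa using List.all_eq_true.1 h p hp

/-- All vertices. -/
def full : ℕ := 2 ^ 69 - 1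

/-- All vertices except `0`, `a`, `b`. -/
def allowed (a b : ℕ) : ℕ := full ^^^ (1 ||| ((1 <<< a) ||| (1 <<< b)))

/-- A vertex different from `0`, `a` and `b`. -/
def root (a b : ℕ) : ℕ :=
  bif (1 != a) && (1 != b) then 1 else bif (2 != a) && (2 != b) then 2 else 3

/-- The vertices reachable from the root, avoiding `0`, `a` and `b`. -/
noncomputable def flood (a b : ℕ) : ℕ :=
  strict (allowed a b) fun c => strict (sweep c frows (1 <<< root a b)) fun r =>
    cond (Nat.beq r c) r (strict (sweep c brows r) fun s =>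
      cond (Nat.beq s c) s (sweep c frows s))

theorem flood_check :
    ((List.range 69).all fun a => (List.range (a + 1)).all fun b =>
      Nat.beq (flood a b) (allowed a b)) = true := by
  decide +kernel

theorem testBit_full (i : ℕ) : full.testBit i = decide (i < 69) := by
  unfold full
  exact Nat.testBit_two_pow_sub_one 69 i

theorem testBit_one (i : ℕ) : (1 : ℕ).testBit i = decide (i = 0) := by
  have h := Nat.testBit_two_pow (n := 0) (m := i)
  rw [pow_zero] at h
  rw [h]
  simp [eq_comm]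

theorem testBit_shift (a i : ℕ) : (1 <<< a : ℕ).testBit i = decide (i = a) := by
  rw [Nat.one_shiftLeft, Nat.testBit_two_pow]
  simp [eq_comm]

theorem testBit_allowed (a b i : ℕ) (hi : i < 69) :
    (allowed a b).testBit i = true ↔ i ≠ 0 ∧ i ≠ a ∧ i ≠ b := by
  unfold allowed
  rw [Nat.testBit_xor, Nat.testBit_or, Nat.testBit_or, testBit_full, testBit_one, testBit_shift,
    testBit_shift]
  simp [hi]

theorem allowed_lt (a b : ℕ) (ha : a < 69) (hb : b < 69) : allowed a b < 2 ^ 69 := by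
  have h1 : full < 2 ^ 69 := by unfold full; norm_num
  have h2 : (1 : ℕ) < 2 ^ 69 := by norm_num
  have h3 : ∀ a, a < 69 → (1 <<< a : ℕ) < 2 ^ 69 := fun a ha => by
    rw [Nat.one_shiftLeft]
    exact Nat.pow_lt_pow_right (by norm_num) ha
  exact Nat.xor_lt_two_pow h1 (Nat.or_lt_two_pow h2 (Nat.or_lt_two_pow (h3 a ha) (h3 b hb)))

theorem allowed_comm (a b : ℕ) : allowed a b = allowed b a := by
  unfold allowed
  rw [Nat.or_comm (1 <<< a)]

theorem flood_reach (a b : ℕ) (ha : a < 69) (hb : b ≤ a) (i : ℕ)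
    (hi : (allowed a b).testBit i = true) :
    Relation.ReflTransGen (Step (allowed a b)) (root a b) i := by
  have h1 := List.all_eq_true.1 flood_check a (List.mem_range.2 ha)
  have h2 := List.all_eq_true.1 h1 b (List.mem_range.2 (Nat.lt_succ_of_le hb))
  have h3 : flood a b = allowed a b := Nat.eq_of_beq_eq_true h2
  have h0 : ∀ j, (1 <<< root a b : ℕ).testBit j = true →
      Relation.ReflTransGen (Step (allowed a b)) (root a b) j := by
    intro j hj
    rw [testBit_shift, decide_eq_true_iff] at hj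
    rw [hj]
  have h4 : ∀ j, (flood a b).testBit j = true →
      Relation.ReflTransGen (Step (allowed a b)) (root a b) j := by
    unfold flood
    rw [strict_eq, strict_eq, strict_eq]
    have g1 := sweep_sound (allowed a b) (root a b) frows frows_ok _ h0
    have g2 := sweep_sound (allowed a b) (root a b) brows brows_ok _ g1
    have g3 := sweep_sound (allowed a b) (root a b) frows frows_ok _ g2
    cases Nat.beq (sweep (allowed a b) frows (1 <<< root a b)) (allowed a b) with
    | true => exact g1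
    | false =>
      cases Nat.beq (sweep (allowed a b) brows (sweep (allowed a b) frows (1 <<< root a b)))
        (allowed a b) with
      | true => exact g2
      | false => exact g3
  exact h4 i (by rw [h3]; exact hi)

theorem root_spec (a b : ℕ) : root a b < 69 ∧ root a b ≠ 0 ∧ root a b ≠ a ∧ root a b ≠ b := by
  have h : root a b = if 1 ≠ a ∧ 1 ≠ b then 1 else if 2 ≠ a ∧ 2 ≠ b then 2 else 3 := by
    unfold root
    rw [Bool.cond_eq_ite, Bool.cond_eq_ite]
    simp only [Bool.and_eq_true, bne_iff_ne]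
  rw [h]
  split_ifs <;> omega

theorem reach_of_step {S : Finset (Fin 69)} {a b : ℕ}
    (hS : ∀ x : Fin 69, x ∉ S ↔ (x : ℕ) ≠ 0 ∧ (x : ℕ) ≠ a ∧ (x : ℕ) ≠ b)
    (r : Fin 69) (hr : r ∉ S) (i : ℕ)
    (h : Relation.ReflTransGen (Step (allowed a b)) (r : ℕ) i) :
    ∃ (hi : i < 69) (hiS : (⟨i, hi⟩ : Fin 69) ∉ S),
      (G.induce {x | x ∉ S}).Reachable ⟨r, hr⟩ ⟨⟨i, hi⟩, hiS⟩ := by
  induction h with
  | refl => exact ⟨r.2, hr, SimpleGraph.Reachable.refl _⟩
  | @tail i j _ hij ih =>
    obtain ⟨hi, hiS, hreach⟩ := ih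
    obtain ⟨h1, h2⟩ := hij
    have hj : j < 69 := lt_of_adjB hi h1
    have hjS : (⟨j, hj⟩ : Fin 69) ∉ S := by
      rw [hS]
      exact (testBit_allowed a b j hj).1 h2
    refine ⟨hj, hjS, hreach.trans ?_⟩
    apply SimpleGraph.Adj.reachable
    show G.Adj _ _
    rw [G_adj]
    exact h1

theorem connected_of_mem {S : Finset (Fin 69)} (hS3 : S.card ≤ 3) (h0 : (0 : Fin 69) ∈ S) :
    (G.induce {x | x ∉ S}).Connected := by
  obtain ⟨a, b, hba, hS⟩ : ∃ a b : Fin 69, b ≤ a ∧ ∀ x : Fin 69, x ∉ S ↔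
      (x : ℕ) ≠ 0 ∧ (x : ℕ) ≠ a ∧ (x : ℕ) ≠ b := by
    have hcard : (S.erase 0).card ≤ 2 := by
      rw [Finset.card_erase_of_mem h0]
      omega
    have hSe : ∀ x : Fin 69, x ∉ S ↔ x ≠ 0 ∧ x ∉ S.erase 0 := by
      intro x
      rw [Finset.mem_erase]
      constructor
      · intro h
        exact ⟨fun e => h (e ▸ h0), fun h' => h h'.2⟩
      · intro h h'
        exact h.2 ⟨h.1, h'⟩
    have hne0 : ∀ x : Fin 69, x ≠ 0 ↔ (x : ℕ) ≠ 0 := by
      intro x
      rw [Ne, Fin.ext_iff]
      rfl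
    rcases Nat.lt_or_ge (S.erase 0).card 1 with h | h
    · have h1 : S.erase 0 = ∅ := Finset.card_eq_zero.1 (by omega)
      refine ⟨0, 0, le_rfl, fun x => ?_⟩
      rw [hSe, h1, hne0]
      simp
    · rcases Nat.lt_or_ge (S.erase 0).card 2 with h' | h'
      · obtain ⟨a, ha⟩ := Finset.card_eq_one.1 (show (S.erase 0).card = 1 by omega)
        refine ⟨a, a, le_rfl, fun x => ?_⟩
        rw [hSe, ha, hne0, Finset.mem_singleton, Fin.ext_iff]
        tauto
      · obtain ⟨a, b, -, hab⟩ := Finset.card_eq_two.1 (show (S.erase 0).card = 2 by omega)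
        rcases le_total b a with hle | hle
        · refine ⟨a, b, hle, fun x => ?_⟩
          rw [hSe, hab, hne0, Finset.mem_insert, Finset.mem_singleton, Fin.ext_iff, Fin.ext_iff]
          tauto
        · refine ⟨b, a, hle, fun x => ?_⟩
          rw [hSe, hab, hne0, Finset.mem_insert, Finset.mem_singleton, Fin.ext_iff, Fin.ext_iff]
          tauto
  obtain ⟨hr1, hr2, hr3, hr4⟩ := root_spec a b
  have hrS : (⟨root a b, hr1⟩ : Fin 69) ∉ S := by
    rw [hS]
    exact ⟨hr2, hr3, hr4⟩
  rw [SimpleGraph.connected_iff_exists_forall_reachable]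
  refine ⟨⟨⟨root a b, hr1⟩, hrS⟩, ?_⟩
  rintro ⟨w, hw⟩
  have hw' : w ∉ S := hw
  have h1 : (allowed a b).testBit w = true := (testBit_allowed a b w w.2).2 ((hS w).1 hw')
  obtain ⟨_, _, h2⟩ := reach_of_step hS ⟨root a b, hr1⟩ hrS w
    (flood_reach a b a.2 hba w h1)
  exact h2

/-! ### Deleting at most three vertices other than `0` -/

/-- `l` is the list of inner vertices of a path from `w` to `0`. -/
def pathOK : ℕ → List ℕ → Bool
  | w, [] => adjB w 0
  | w, x :: l => adjB w x && pathOK x l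

theorem reach_path {S : Finset (Fin 69)} (h0 : (0 : Fin 69) ∉ S) :
    ∀ (l : List ℕ) (w : ℕ) (hw : w < 69) (hwS : (⟨w, hw⟩ : Fin 69) ∉ S),
      pathOK w l = true → (∀ x ∈ l, ∀ hx : x < 69, (⟨x, hx⟩ : Fin 69) ∉ S) →
      (G.induce {x | x ∉ S}).Reachable ⟨⟨w, hw⟩, hwS⟩ ⟨0, h0⟩ := by
  intro l
  induction l with
  | nil =>
    intro w hw hwS h _
    apply SimpleGraph.Adj.reachable
    show G.Adj _ _
    rw [G_adj]
    exact h
  | cons x l ih =>
    intro w hw hwS h hl
    rw [pathOK, Bool.and_eq_true] at h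
    have hx : x < 69 := lt_of_adjB hw h.1
    have hxS := hl x List.mem_cons_self hx
    refine SimpleGraph.Reachable.trans ?_
      (ih x hx hxS h.2 fun y hy => hl y (List.mem_cons_of_mem _ hy))
    apply SimpleGraph.Adj.reachable
    show G.Adj _ _
    rw [G_adj]
    exact h.1

/-- The two lists have no common element. -/
def disjB (l m : List ℕ) : Bool := l.all fun x => !(m.contains x)

theorem disjB_spec {l m : List ℕ} (h : disjB l m = true) {x : ℕ} (hl : x ∈ l) : x ∉ m := by
  have h1 := List.all_eq_true.1 h x hl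
  simpa using h1

/-- The check of the certificate for one vertex. -/
def certOK (w : ℕ) (ps : List (List ℕ)) : Bool :=
  match ps with
  | [p, q, r, s] => pathOK w p && pathOK w q && pathOK w r && pathOK w s && disjB p q &&
      disjB p r && disjB p s && disjB q r && disjB q s && disjB r s
  | _ => false

theorem cert_check :
    ((List.range 69).all fun w => (w == 0) || adjB w 0 ||
      certOK w ((cert.lookup w).getD [])) = true := by
  decide +kernel

theorem reach_of_certOK {S : Finset (Fin 69)} (hS3 : S.card ≤ 3) (h0 : (0 : Fin 69) ∉ S)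
    {w : ℕ} (hw : w < 69) (hwS : (⟨w, hw⟩ : Fin 69) ∉ S) {ps : List (List ℕ)}
    (h : certOK w ps = true) :
    (G.induce {x | x ∉ S}).Reachable ⟨⟨w, hw⟩, hwS⟩ ⟨0, h0⟩ := by
  unfold certOK at h
  split at h
  · rename_i p q r s
    simp only [Bool.and_eq_true] at h
    obtain ⟨⟨⟨⟨⟨⟨⟨⟨⟨hp, hq⟩, hr⟩, hs⟩, hpq⟩, hpr⟩, hps⟩, hqr⟩, hqs⟩, hrs⟩ := h
    by_cases cp : ∀ x ∈ p, ∀ hx : x < 69, (⟨x, hx⟩ : Fin 69) ∉ S
    · exact reach_path h0 p w hw hwS hp cp
    by_cases cq : ∀ x ∈ q, ∀ hx : x < 69, (⟨x, hx⟩ : Fin 69) ∉ S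
    · exact reach_path h0 q w hw hwS hq cq
    by_cases cr : ∀ x ∈ r, ∀ hx : x < 69, (⟨x, hx⟩ : Fin 69) ∉ S
    · exact reach_path h0 r w hw hwS hr cr
    by_cases cs : ∀ x ∈ s, ∀ hx : x < 69, (⟨x, hx⟩ : Fin 69) ∉ S
    · exact reach_path h0 s w hw hwS hs cs
    exfalso
    push Not at cp cq cr cs
    obtain ⟨a, ha, ha', haS⟩ := cp
    obtain ⟨b, hb, hb', hbS⟩ := cq
    obtain ⟨c, hc, hc', hcS⟩ := cr
    obtain ⟨d, hd, hd', hdS⟩ := cs
    have hab : a ≠ b := fun e => disjB_spec hpq ha (e ▸ hb)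
    have hac : a ≠ c := fun e => disjB_spec hpr ha (e ▸ hc)
    have had : a ≠ d := fun e => disjB_spec hps ha (e ▸ hd)
    have hbc : b ≠ c := fun e => disjB_spec hqr hb (e ▸ hc)
    have hbd : b ≠ d := fun e => disjB_spec hqs hb (e ▸ hd)
    have hcd : c ≠ d := fun e => disjB_spec hrs hc (e ▸ hd)
    have hsub : ({⟨a, ha'⟩, ⟨b, hb'⟩, ⟨c, hc'⟩, ⟨d, hd'⟩} : Finset (Fin 69)) ⊆ S := by
      intro x hx
      simp only [Finset.mem_insert, Finset.mem_singleton] at hx
      rcases hx with rfl | rfl | rfl | rfl <;> assumption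
    have hcard : ({⟨a, ha'⟩, ⟨b, hb'⟩, ⟨c, hc'⟩, ⟨d, hd'⟩} : Finset (Fin 69)).card = 4 := by
      rw [Finset.card_insert_of_notMem, Finset.card_insert_of_notMem,
        Finset.card_insert_of_notMem, Finset.card_singleton]
      · simp [hcd]
      · simp [hbc, hbd]
      · simp [hab, hac, had]
    have := Finset.card_le_card hsub
    omega
  · exact absurd h (by simp)

theorem connected_of_notMem {S : Finset (Fin 69)} (hS3 : S.card ≤ 3) (h0 : (0 : Fin 69) ∉ S) :
    (G.induce {x | x ∉ S}).Connected := by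
  rw [SimpleGraph.connected_iff_exists_forall_reachable]
  refine ⟨⟨0, h0⟩, ?_⟩
  rintro ⟨w, hw⟩
  have hwS : w ∉ S := hw
  have h1 := List.all_eq_true.1 cert_check w (List.mem_range.2 w.2)
  simp only [Bool.or_eq_true, beq_iff_eq] at h1
  rcases h1 with (h1 | h1) | h1
  · have : w = 0 := Fin.ext h1
    subst this
    exact SimpleGraph.Reachable.refl _
  · apply SimpleGraph.Reachable.symm
    apply SimpleGraph.Adj.reachable
    show (G.induce {x | x ∉ S}).Adj ⟨w, hw⟩ ⟨0, h0⟩
    show G.Adj _ _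
    rw [G_adj]
    exact h1
  · exact (reach_of_certOK hS3 h0 w.2 hwS h1).symm

theorem fourConnected : FourConnected G := by
  refine ⟨by simp, fun S hS => ?_⟩
  by_cases h0 : (0 : Fin 69) ∈ S
  · exact connected_of_mem hS h0
  · exact connected_of_notMem hS h0

end Pool.Agent.Helper89_Planar
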