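import Pool.Agent.Helper89_Planar.Graph
import Pool.Agent.Helper89_Planar.Conn

/-!
# The graph minus vertex `0` has no 7-cycle
-/

namespace Pool.Agent.Helper89_Planar

/-- The block (wheel or strip) to which a vertex belongs. -/
def blk (i : ℕ) : ℕ := if i = 0 then 0 else if i ≤ 20 then 1 + (i - 1) / 5 else 5 + (i - 21) / 6

/-- The neighbours of the members of `m`. -/
def nbhd (m : ℕ) : ℕ := irows.foldl (fun acc p => bif m.testBit p.1 then acc ||| p.2 else acc) 0

theorem foldl_mono (m : ℕ) (j : ℕ) : ∀ (L : List (ℕ × ℕ)) (acc : ℕ), acc.testBit j = true →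
    (L.foldl (fun acc p => bif m.testBit p.1 then acc ||| p.2 else acc) acc).testBit j = true := by
  intro L
  induction L with
  | nil => intro acc h; exact h
  | cons p L ih =>
    intro acc h
    rw [List.foldl_cons]
    apply ih
    cases m.testBit p.1 with
    | true => rw [cond_true, Nat.testBit_or, h, Bool.true_or]
    | false => rw [cond_false]; exact h

theorem nbhd_spec {m i j : ℕ} (hi : i < 69) (hm : m.testBit i = true) (hij : adjB i j = true) :
    (nbhd m).testBit j = true := by
  have key : ∀ (L : List (ℕ × ℕ)) (acc : ℕ), (i, rowOf i) ∈ L →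
      (L.foldl (fun acc p => bif m.testBit p.1 then acc ||| p.2 else acc) acc).testBit j
        = true := by
    intro L
    induction L with
    | nil => intro acc h; exact absurd h (by simp)
    | cons p L ih =>
      intro acc h
      rw [List.foldl_cons]
      rcases List.mem_cons.1 h with h | h
      · apply foldl_mono
        rw [← h]
        show (bif m.testBit i then acc ||| rowOf i else acc).testBit j = true
        rw [hm, cond_true, Nat.testBit_or]
        have h2 : (rowOf i).testBit j = true := hij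
        rw [h2, Bool.or_true]
      · exact ih _ h
  exact key irows 0 (mem_irows i hi)

/-- The end vertices of the walks with five steps starting at `b` in the graph minus `0` and
`a`. -/
def ball (a b : ℕ) : ℕ :=
  let c := full ^^^ (1 ||| (1 <<< a))
  nbhd (nbhd (nbhd (nbhd (nbhd (1 <<< b) &&& c) &&& c) &&& c) &&& c) &&& c

theorem ball_check :
    ((List.range 69).all fun a => (List.range 69).all fun b =>
      (a == 0) || (b == 0) || !(adjB a b) || (blk a == blk b) ||
        ((ball a b &&& rowOf a) ||| (1 <<< b) == (1 <<< b))) = true := by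
  decide +kernel

theorem testBit_mask (a j : ℕ) (hj : j < 69) :
    (full ^^^ (1 ||| (1 <<< a))).testBit j = true ↔ j ≠ 0 ∧ j ≠ a := by
  rw [Nat.testBit_xor, Nat.testBit_or, testBit_full, testBit_one, testBit_shift]
  simp [hj]

theorem no_seven_of_link {a b x2 x3 x4 x5 x6 : ℕ} (ha : a < 69) (hb : b < 69) (h2 : x2 < 69)
    (h3 : x3 < 69) (h4 : x4 < 69) (h5 : x5 < 69) (h6 : x6 < 69) (ha0 : a ≠ 0) (hb0 : b ≠ 0)
    (hab : adjB a b = true) (hblk : blk a ≠ blk b)
    (e2 : adjB b x2 = true) (e3 : adjB x2 x3 = true) (e4 : adjB x3 x4 = true)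
    (e5 : adjB x4 x5 = true) (e6 : adjB x5 x6 = true) (e7 : adjB x6 a = true)
    (n2 : x2 ≠ 0 ∧ x2 ≠ a) (n3 : x3 ≠ 0 ∧ x3 ≠ a) (n4 : x4 ≠ 0 ∧ x4 ≠ a) (n5 : x5 ≠ 0 ∧ x5 ≠ a)
    (n6 : x6 ≠ 0 ∧ x6 ≠ a) (hne : x6 ≠ b) : False := by
  have hc := List.all_eq_true.1 (List.all_eq_true.1 ball_check a (List.mem_range.2 ha)) b
    (List.mem_range.2 hb)
  have hc2 : (ball a b &&& rowOf a) ||| (1 <<< b) = (1 <<< b) := by
    simp only [Bool.or_eq_true, beq_iff_eq, Bool.not_eq_true'] at hc
    rcases hc with (((h | h) | h) | h) | h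
    · exact absurd h ha0
    · exact absurd h hb0
    · rw [hab] at h; exact absurd h (by simp)
    · exact absurd h hblk
    · exact h
  have step : ∀ {m i j : ℕ}, i < 69 → j < 69 → m.testBit i = true → adjB i j = true →
      (j ≠ 0 ∧ j ≠ a) → (nbhd m &&& (full ^^^ (1 ||| (1 <<< a)))).testBit j = true := by
    intro m i j hi hj hm hij hn
    rw [Nat.testBit_and, nbhd_spec hi hm hij, (testBit_mask a j hj).2 hn, Bool.true_and]
  have s1 : (1 <<< b : ℕ).testBit b = true := by rw [testBit_shift]; simp
  have s2 := step hb h2 s1 e2 n2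
  have s3 := step h2 h3 s2 e3 n3
  have s4 := step h3 h4 s3 e4 n4
  have s5 := step h4 h5 s4 e5 n5
  have s6 := step h5 h6 s5 e6 n6
  have s7 : (ball a b).testBit x6 = true := s6
  have s8 : (rowOf a).testBit x6 = true := by
    have : adjB a x6 = true := by rw [adjB_symm a x6 ha h6]; exact e7
    exact this
  have s9 : ((ball a b &&& rowOf a) ||| (1 <<< b)).testBit x6 = true := by
    rw [Nat.testBit_or, Nat.testBit_and, s7, s8]
    rfl
  rw [hc2, testBit_shift, decide_eq_true_iff] at s9
  exact hne s9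

theorem blk_check : ∀ i : Fin 69, (i : ℕ) ≠ 0 →
    (Finset.univ.filter fun j : Fin 69 => (j : ℕ) ≠ 0 ∧ blk j = blk i).card ≤ 6 := by
  decide +kernel

/-- There is no cyclic sequence of seven distinct vertices of the graph minus `0`. -/
theorem no_seven (x : ℕ → Fin 69) (hper : ∀ n, x (n + 7) = x n)
    (hinj : ∀ m n, x m = x n → m % 7 = n % 7) (h0 : ∀ n, x n ≠ 0)
    (hadj : ∀ n, G.Adj (x n) (x (n + 1))) : False := by
  have h0' : ∀ n, (x n : ℕ) ≠ 0 := fun n h => h0 n (Fin.ext h)
  by_cases hall : ∀ n, blk (x n) = blk (x (n + 1))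
  · have hconst : ∀ n, blk (x n) = blk (x 0) := by
      intro n
      induction n with
      | zero => rfl
      | succ n ih => rw [← hall n, ih]
    have hcard := blk_check (x 0) (h0' 0)
    have hsub : (Finset.range 7).image x ⊆
        Finset.univ.filter fun j : Fin 69 => (j : ℕ) ≠ 0 ∧ blk j = blk (x 0) := by
      intro y hy
      obtain ⟨n, -, rfl⟩ := Finset.mem_image.1 hy
      rw [Finset.mem_filter]
      exact ⟨Finset.mem_univ _, h0' n, hconst n⟩
    have hcard2 : ((Finset.range 7).image x).card = 7 := by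
      rw [Finset.card_image_of_injOn, Finset.card_range]
      intro m hm n hn hmn
      have hm' := Finset.mem_range.1 (Finset.mem_coe.1 hm)
      have hn' := Finset.mem_range.1 (Finset.mem_coe.1 hn)
      have := hinj m n hmn
      omega
    have := Finset.card_le_card hsub
    omega
  · push Not at hall
    obtain ⟨n, hn⟩ := hall
    have hval : ∀ m k, (x m : ℕ) = x k → m % 7 = k % 7 := fun m k h => hinj m k (Fin.ext h)
    have hne : ∀ k, 1 ≤ k → k ≤ 6 → (x (n + k) : ℕ) ≠ x n := by
      intro k h1 h2 h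
      have := hval _ _ h
      omega
    refine no_seven_of_link (a := x n) (b := x (n + 1)) (x2 := x (n + 2)) (x3 := x (n + 3))
      (x4 := x (n + 4)) (x5 := x (n + 5)) (x6 := x (n + 6)) (x n).2 (x (n + 1)).2 (x (n + 2)).2
      (x (n + 3)).2 (x (n + 4)).2 (x (n + 5)).2 (x (n + 6)).2 (h0' _) (h0' _) (hadj n) hn
      (hadj (n + 1)) (hadj (n + 2)) (hadj (n + 3)) (hadj (n + 4)) (hadj (n + 5)) ?_
      ⟨h0' _, hne 2 (by norm_num) (by norm_num)⟩ ⟨h0' _, hne 3 (by norm_num) (by norm_num)⟩
      ⟨h0' _, hne 4 (by norm_num) (by norm_num)⟩ ⟨h0' _, hne 5 (by norm_num) (by norm_num)⟩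
      ⟨h0' _, hne 6 (by norm_num) (by norm_num)⟩ ?_
    · have := hadj (n + 6)
      rw [show n + 6 + 1 = n + 7 from rfl, hper n] at this
      exact this
    · intro h
      have := hval _ _ h
      omega

theorem noSevenCycle : ¬ HasCycleOfLength (G.induce {x | x ≠ 0}) 7 := by
  rintro ⟨u, c, hc, hlen⟩
  refine no_seven (fun n => (c.getVert (n % 7)).1) (fun n => ?_) (fun m n h => ?_)
    (fun n => (c.getVert (n % 7)).2) (fun n => ?_)
  · show (c.getVert ((n + 7) % 7)).1 = (c.getVert (n % 7)).1
    rw [Nat.add_mod_right]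
  · have h1 : c.getVert (m % 7) = c.getVert (n % 7) := Subtype.ext h
    have hinj := hc.getVert_injOn'
    refine hinj ?_ ?_ h1
    · show m % 7 ≤ c.length - 1
      omega
    · show n % 7 ≤ c.length - 1
      omega
  · have hlt : n % 7 < c.length := by omega
    have h1 := c.adj_getVert_succ hlt
    have h2 : G.Adj (c.getVert (n % 7)).1 (c.getVert (n % 7 + 1)).1 := h1
    rcases Nat.lt_or_ge (n % 7) 6 with h | h
    · have : (n + 1) % 7 = n % 7 + 1 := by omega
      show G.Adj (c.getVert (n % 7)).1 (c.getVert ((n + 1) % 7)).1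
      rw [this]
      exact h2
    · have h3 : (n + 1) % 7 = 0 := by omega
      have h4 : n % 7 + 1 = c.length := by omega
      show G.Adj (c.getVert (n % 7)).1 (c.getVert ((n + 1) % 7)).1
      rw [h3, SimpleGraph.Walk.getVert_zero]
      rw [h4, SimpleGraph.Walk.getVert_length] at h2
      exact h2

end Pool.Agent.Helper89_Planar
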