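import Pool.Agent.Helper89_Planar.Graph
import Pool.Agent.Helper89_Planar.Defs

/-!
# The straight-line drawing of the graph
-/

namespace Pool.Agent.Helper89_Planar

/-- The orientation of the triangle `a b c` (twice its signed area). -/
def orient (a b c : ℝ × ℝ) : ℝ :=
  (b.1 - a.1) * (c.2 - a.2) - (b.2 - a.2) * (c.1 - a.1)

theorem orient_segment {a b c d x : ℝ × ℝ} (hx : x ∈ segment ℝ c d) :
    ∃ s t : ℝ, 0 ≤ s ∧ 0 ≤ t ∧ s + t = 1 ∧ orient a b x = s * orient a b c + t * orient a b d := by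
  obtain ⟨s, t, hs, ht, hst, rfl⟩ := hx
  refine ⟨s, t, hs, ht, hst, ?_⟩
  have hs' : s = 1 - t := by linarith
  subst hs'
  simp only [orient, Prod.fst_add, Prod.snd_add, Prod.smul_fst, Prod.smul_snd, smul_eq_mul]
  ring

theorem orient_on {a b x : ℝ × ℝ} (hx : x ∈ segment ℝ a b) : orient a b x = 0 := by
  obtain ⟨s, t, -, -, -, h⟩ := orient_segment (a := a) (b := b) hx
  rw [h]
  simp only [orient]
  ring

theorem disjoint_of_pos {a b c d x : ℝ × ℝ} (h1 : 0 < orient a b c) (h2 : 0 < orient a b d)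
    (hx : x ∈ segment ℝ a b) (hx' : x ∈ segment ℝ c d) : False := by
  obtain ⟨s, t, hs, ht, hst, h⟩ := orient_segment (a := a) (b := b) hx'
  rw [orient_on hx] at h
  rcases eq_or_lt_of_le hs with hs0 | hs0
  · have : t = 1 := by linarith
    rw [← hs0, this] at h
    linarith
  · have := mul_pos hs0 h1
    have := mul_nonneg ht h2.le
    linarith

theorem disjoint_of_neg {a b c d x : ℝ × ℝ} (h1 : orient a b c < 0) (h2 : orient a b d < 0)
    (hx : x ∈ segment ℝ a b) (hx' : x ∈ segment ℝ c d) : False := by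
  obtain ⟨s, t, hs, ht, hst, h⟩ := orient_segment (a := a) (b := b) hx'
  rw [orient_on hx] at h
  rcases eq_or_lt_of_le hs with hs0 | hs0
  · have : t = 1 := by linarith
    rw [← hs0, this] at h
    linarith
  · have := mul_neg_of_pos_of_neg hs0 h1
    have := mul_nonpos_of_nonneg_of_nonpos ht h2.le
    linarith

theorem eq_of_fan {a b c x : ℝ × ℝ} (h : orient a b c ≠ 0) (hx : x ∈ segment ℝ a b)
    (hx' : x ∈ segment ℝ a c) : x = a := by
  have h1 := orient_on hx
  obtain ⟨s, t, hs, ht, hst, rfl⟩ := hx'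
  have hs' : s = 1 - t := by linarith
  subst hs'
  have h2 : orient a b ((1 - t) • a + t • c) = t * orient a b c := by
    simp only [orient, Prod.fst_add, Prod.snd_add, Prod.smul_fst, Prod.smul_snd, smul_eq_mul]
    ring
  rw [h2] at h1
  have h3 : t = 0 := by
    rcases mul_eq_zero.1 h1 with h3 | h3
    · exact h3
    · exact absurd h3 h
  rw [h3]
  simp

/-- Integer coordinates of the vertices. -/
def pt (i : ℕ) : ℤ × ℤ := coords.getD i (0, 0)

/-- The orientation, in integers. -/
def orZ (a b c : ℤ × ℤ) : ℤ :=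
  (b.1 - a.1) * (c.2 - a.2) - (b.2 - a.2) * (c.1 - a.1)

/-- The drawing. -/
noncomputable def pos (i : ℕ) : ℝ × ℝ := (((pt i).1 : ℝ), ((pt i).2 : ℝ))

theorem orient_pos (i j k : ℕ) : orient (pos i) (pos j) (pos k) = (orZ (pt i) (pt j) (pt k) : ℝ) := by
  unfold orient orZ pos
  push_cast
  ring

/-- Points `c` and `d` are strictly on the same side of the line `ab`. -/
def sameSide (a b c d : ℤ × ℤ) : Bool :=
  (decide (0 < orZ a b c) && decide (0 < orZ a b d)) ||
    (decide (orZ a b c < 0) && decide (orZ a b d < 0))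

/-- The check for two edges. -/
def goodPair (e f : ℕ × ℕ) : Bool :=
  if e.1 = f.1 then decide (orZ (pt e.1) (pt e.2) (pt f.2) ≠ 0) else
  if e.1 = f.2 then decide (orZ (pt e.1) (pt e.2) (pt f.1) ≠ 0) else
  if e.2 = f.1 then decide (orZ (pt e.2) (pt e.1) (pt f.2) ≠ 0) else
  if e.2 = f.2 then decide (orZ (pt e.2) (pt e.1) (pt f.1) ≠ 0) else
  sameSide (pt e.1) (pt e.2) (pt f.1) (pt f.2) || sameSide (pt f.1) (pt f.2) (pt e.1) (pt e.2)

/-- The condition on two edges. -/
def Meet (e f : ℕ × ℕ) : Prop :=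
  ∀ x, x ∈ segment ℝ (pos e.1) (pos e.2) → x ∈ segment ℝ (pos f.1) (pos f.2) →
    ∃ w, (w = e.1 ∨ w = e.2) ∧ (w = f.1 ∨ w = f.2) ∧ x = pos w

instance Meet.symm : Std.Symm Meet := ⟨by
  intro e f h x hx hx'
  obtain ⟨w, h1, h2, h3⟩ := h x hx' hx
  exact ⟨w, h2, h1, h3⟩⟩

theorem sameSide_spec {a b c d : ℕ} (h : sameSide (pt a) (pt b) (pt c) (pt d) = true)
    {x : ℝ × ℝ} (hx : x ∈ segment ℝ (pos a) (pos b)) (hx' : x ∈ segment ℝ (pos c) (pos d)) :
    False := by
  unfold sameSide at h
  rw [Bool.or_eq_true, Bool.and_eq_true, Bool.and_eq_true, decide_eq_true_iff,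
    decide_eq_true_iff, decide_eq_true_iff, decide_eq_true_iff] at h
  rcases h with ⟨h1, h2⟩ | ⟨h1, h2⟩
  · refine disjoint_of_pos ?_ ?_ hx hx'
    · rw [orient_pos]; exact_mod_cast h1
    · rw [orient_pos]; exact_mod_cast h2
  · refine disjoint_of_neg ?_ ?_ hx hx'
    · rw [orient_pos]; exact_mod_cast h1
    · rw [orient_pos]; exact_mod_cast h2

theorem fan_spec {a b c : ℕ} (h : orZ (pt a) (pt b) (pt c) ≠ 0) {x : ℝ × ℝ}
    (hx : x ∈ segment ℝ (pos a) (pos b)) (hx' : x ∈ segment ℝ (pos a) (pos c)) : x = pos a := by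
  refine eq_of_fan ?_ hx hx'
  rw [orient_pos]
  exact_mod_cast h

theorem meet_of_goodPair {e f : ℕ × ℕ} (h : goodPair e f = true) : Meet e f := by
  obtain ⟨a, b⟩ := e
  obtain ⟨c, d⟩ := f
  unfold goodPair at h
  intro x hx hx'
  dsimp only at h hx hx' ⊢
  split_ifs at h with h1 h2 h3 h4
  · subst h1
    exact ⟨a, Or.inl rfl, Or.inl rfl, fan_spec (of_decide_eq_true h) hx hx'⟩
  · subst h2
    rw [segment_symm] at hx'
    exact ⟨a, Or.inl rfl, Or.inr rfl, fan_spec (of_decide_eq_true h) hx hx'⟩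
  · subst h3
    rw [segment_symm] at hx
    exact ⟨b, Or.inr rfl, Or.inl rfl, fan_spec (of_decide_eq_true h) hx hx'⟩
  · subst h4
    rw [segment_symm] at hx hx'
    exact ⟨b, Or.inr rfl, Or.inr rfl, fan_spec (of_decide_eq_true h) hx hx'⟩
  · exfalso
    rw [Bool.or_eq_true] at h
    rcases h with h | h
    · exact sameSide_spec h hx hx'
    · exact sameSide_spec h hx' hx

/-- The check for all pairs of edges. -/
def allPairs : List (ℕ × ℕ) → Bool
  | [] => true
  | e :: L => L.all (goodPair e) && allPairs L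

theorem allPairs_check : allPairs edges = true := by
  decide +kernel

theorem pairwise_of_allPairs : ∀ L : List (ℕ × ℕ), allPairs L = true → L.Pairwise Meet := by
  intro L
  induction L with
  | nil => intro _; exact List.Pairwise.nil
  | cons e L ih =>
    intro h
    rw [allPairs, Bool.and_eq_true] at h
    refine List.Pairwise.cons (fun f hf => meet_of_goodPair (List.all_eq_true.1 h.1 f hf)) (ih h.2)

theorem edges_check :
    ((List.range 69).all fun i => (List.range 69).all fun j =>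
      !(decide (i < j)) || !(adjB i j) || decide ((i, j) ∈ edges)) = true := by
  decide +kernel

theorem mem_edges {i j : ℕ} (hi : i < 69) (hj : j < 69) (hij : i < j) (h : adjB i j = true) :
    (i, j) ∈ edges := by
  have h1 := List.all_eq_true.1 (List.all_eq_true.1 edges_check i (List.mem_range.2 hi)) j
    (List.mem_range.2 hj)
  rw [h] at h1
  simpa [hij] using h1

theorem meet_edges {e f : ℕ × ℕ} (he : e ∈ edges) (hf : f ∈ edges) (hne : e ≠ f) : Meet e f :=
  (pairwise_of_allPairs edges allPairs_check).forall he hf hne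

theorem coords_check :
    ((List.range 69).all fun i => (List.range 69).all fun j =>
      decide (i = j) || !(decide (pt i = pt j))) = true := by
  decide +kernel

theorem degree_check :
    ((List.range 69).all fun i => (List.range 69).any fun j => adjB i j) = true := by
  decide +kernel

/-- The drawing of the vertices. -/
noncomputable def place (i : Fin 69) : ℝ × ℝ := pos i

theorem place_injective : Function.Injective place := by
  intro i j h
  have h1 : pt i = pt j := by
    unfold place pos at h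
    rw [Prod.mk.injEq] at h
    exact Prod.ext (by exact_mod_cast h.1) (by exact_mod_cast h.2)
  have h2 := List.all_eq_true.1 (List.all_eq_true.1 coords_check i (List.mem_range.2 i.2)) j
    (List.mem_range.2 j.2)
  rw [h1] at h2
  exact Fin.ext (by simpa using h2)

/-- The increasing pair of vertices of an edge. -/
theorem exists_edge {a b : Fin 69} (h : G.Adj a b) :
    ∃ e ∈ edges, (e = ((a : ℕ), (b : ℕ)) ∨ e = ((b : ℕ), (a : ℕ))) ∧
      segment ℝ (pos e.1) (pos e.2) = segment ℝ (place a) (place b) := by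
  rcases Nat.lt_trichotomy (a : ℕ) b with hab | hab | hab
  · exact ⟨(a, b), mem_edges a.2 b.2 hab h, Or.inl rfl, rfl⟩
  · exact absurd (Fin.ext hab) h.ne
  · exact ⟨(b, a), mem_edges b.2 a.2 hab h.symm, Or.inr rfl, segment_symm _ _ _⟩

theorem edge_edge (a b c d : Fin 69) (hab : G.Adj a b) (hcd : G.Adj c d)
    (hne : s(a, b) ≠ s(c, d)) (x : ℝ × ℝ) (hx : x ∈ segment ℝ (place a) (place b))
    (hx' : x ∈ segment ℝ (place c) (place d)) :
    ∃ w, (w = a ∨ w = b) ∧ (w = c ∨ w = d) ∧ x = place w := by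
  obtain ⟨e, he, hee, hse⟩ := exists_edge hab
  obtain ⟨f, hf, hff, hsf⟩ := exists_edge hcd
  have hef : e ≠ f := by
    intro h
    apply hne
    rw [Sym2.eq_iff]
    rcases hee with h1 | h1 <;> rcases hff with h2 | h2 <;>
      · have h3 := h1.symm.trans (h.trans h2)
        rw [Prod.mk.injEq, ← Fin.ext_iff, ← Fin.ext_iff] at h3
        tauto
  rw [← hse] at hx
  rw [← hsf] at hx'
  obtain ⟨w, hw1, hw2, hw3⟩ := meet_edges he hf hef x hx hx'
  have hw1' : w = a ∨ w = b := by
    rcases hee with h1 | h1 <;> rw [h1] at hw1 <;> tauto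
  have hw2' : w = c ∨ w = d := by
    rcases hff with h1 | h1 <;> rw [h1] at hw2 <;> tauto
  have hlt : w < 69 := by
    rcases hw1' with h | h <;> rw [h]
    · exact a.2
    · exact b.2
  refine ⟨⟨w, hlt⟩, ?_, ?_, hw3⟩
  · rcases hw1' with h | h
    · exact Or.inl (Fin.ext h)
    · exact Or.inr (Fin.ext h)
  · rcases hw2' with h | h
    · exact Or.inl (Fin.ext h)
    · exact Or.inr (Fin.ext h)

theorem planar : Planar G := by
  refine ⟨place, place_injective, fun a b w hab hw => ?_, edge_edge⟩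
  by_contra hc
  push Not at hc
  obtain ⟨j, hj1, hj2⟩ := List.any_eq_true.1
    (List.all_eq_true.1 degree_check w (List.mem_range.2 w.2))
  have hj : j < 69 := List.mem_range.1 hj1
  have hadj : G.Adj w ⟨j, hj⟩ := hj2
  have hne : s(w, (⟨j, hj⟩ : Fin 69)) ≠ s(a, b) := by
    rw [Ne, Sym2.eq_iff]
    rintro (⟨h, -⟩ | ⟨h, -⟩)
    · exact hc.1 h
    · exact hc.2 h
  obtain ⟨z, -, hz2, hz3⟩ := edge_edge w ⟨j, hj⟩ a b hadj hab hne (place w)
    (left_mem_segment ℝ _ _) hw
  have hz : w = z := place_injective hz3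
  rcases hz2 with h | h
  · exact hc.1 (hz.trans h)
  · exact hc.2 (hz.trans h)

end Pool.Agent.Helper89_Planar
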