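import Pool.Agent.Helper89_Planar.Data

/-!
# The graph on 69 vertices
-/

namespace Pool.Agent.Helper89_Planar

/-- The neighbourhood of a vertex, coded in binary. -/
def rowOf (i : ℕ) : ℕ := (irows.getD i (0, 0)).2

/-- Adjacency as a Boolean. -/
def adjB (i j : ℕ) : Bool := (rowOf i).testBit j

theorem irows_ok : ∀ p ∈ irows, rowOf p.1 = p.2 ∧ p.1 < 69 := by
  have h : (irows.all fun p => decide (rowOf p.1 = p.2) && decide (p.1 < 69)) = true := by
    decide +kernel
  intro p hp
  have := List.all_eq_true.1 h p hp
  simpa using this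

theorem mem_irows : ∀ i < 69, (i, rowOf i) ∈ irows := by
  intro i hi
  have h : ((List.range 69).all fun i => decide ((i, rowOf i) ∈ irows)) = true := by
    decide +kernel
  have := List.all_eq_true.1 h i (List.mem_range.2 hi)
  simpa using this

theorem adjB_symm_check :
    ((List.range 69).all fun i => (List.range 69).all fun j => adjB i j == adjB j i) = true := by
  decide +kernel

theorem adjB_irrefl_check : ((List.range 69).all fun i => !(adjB i i)) = true := by
  decide +kernel

theorem adjB_symm (i j : ℕ) (hi : i < 69) (hj : j < 69) : adjB i j = adjB j i := by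
  have h := List.all_eq_true.1 adjB_symm_check i (List.mem_range.2 hi)
  have h2 := List.all_eq_true.1 h j (List.mem_range.2 hj)
  simpa using h2

theorem adjB_irrefl (i : ℕ) (hi : i < 69) : adjB i i = false := by
  have h := List.all_eq_true.1 adjB_irrefl_check i (List.mem_range.2 hi)
  simpa using h

/-- The graph on 69 vertices. -/
def G : SimpleGraph (Fin 69) where
  Adj i j := adjB i j = true
  symm := ⟨fun i j h => by
    rw [adjB_symm _ _ j.2 i.2]; exact h⟩
  loopless := ⟨fun i h => by
    rw [adjB_irrefl _ i.2] at h
    exact Bool.false_ne_true h⟩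

theorem G_adj (i j : Fin 69) : G.Adj i j ↔ adjB i j = true := Iff.rfl

theorem rowOf_lt_check : ((List.range 69).all fun i => decide (rowOf i < 2 ^ 69)) = true := by
  decide +kernel

theorem lt_of_adjB {i j : ℕ} (hi : i < 69) (h : adjB i j = true) : j < 69 := by
  have h1 := List.all_eq_true.1 rowOf_lt_check i (List.mem_range.2 hi)
  have h2 : rowOf i < 2 ^ 69 := by simpa using h1
  by_contra hc
  push Not at hc
  have h3 : rowOf i < 2 ^ j := lt_of_lt_of_le h2 (Nat.pow_le_pow_right (by norm_num) hc)
  have h4 := Nat.testBit_eq_false_of_lt h3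
  unfold adjB at h
  rw [h4] at h
  exact Bool.false_ne_true h

end Pool.Agent.Helper89_Planar
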